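import Pool.Agent.K.MP_3c83d0_ag.C4

open MvPolynomial Pool.Agent.P.MP_3c83d0_ag

namespace Pool.Agent.Results.MP_3c83d0_ag.FiniteOrbits

theorem result (n : ℕ) : ∃ Z : ℕ → MvPolynomial (Fin n × Fin 2) ℂ, (∀ k, Z k ≠ 0) ∧
    ∀ a : Fin n × Fin 2 → ℂ, (∀ k, eval a (Z k) ≠ 0) →
    ∀ (F : MvPolynomial (Fin 3) ℂ) (d : ℕ) (m : Fin n → ℕ), F.IsHomogeneous d → Irreducible F →
      (∀ i, HasMult F ![a (i, 0), a (i, 1), 1] (m i)) →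
      (d : ℤ) ^ 2 - ∑ i, (m i : ℤ) ^ 2 < 0 → ∀ j, 2 ≤ m j →
      ∃ (d' : ℕ) (m' : Fin n → ℕ), Relation.ReflTransGen Step (d, m) (d', m') ∧
        d' ≤ 24 * m j ^ 6 ∧ ∑ i, m' i ≤ 74 * m j ^ 6 := by
  obtain ⟨Z, hZ, hind⟩ := exists_hypersurfaces (Fin n × Fin 2)
  refine ⟨Z, hZ, fun a ha F d m hF hirr hm hn j hj => ?_⟩
  have hp := gen_of_algInd a (hind a ha)
  have hC : Cv (fun i : Fin n => ![a (i, 0), a (i, 1), 1]) F d m :=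
    ⟨hF, UniqueFactorizationMonoid.irreducible_iff_prime.mp hirr, hm⟩
  obtain ⟨y, h1, h2⟩ := reduce_degree hp hC hn j hj
  exact ⟨y.1, y.2, h1, h2⟩

end Pool.Agent.Results.MP_3c83d0_ag.FiniteOrbits
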