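import Pool.Agent.K.MP_3c83d0_ag.C2
import Pool.Agent.K.MP_3c83d0_ag.C0

open MvPolynomial Pool.Agent.P.MP_3c83d0_ag

namespace Pool.Agent.Results.MP_3c83d0_ag.GenusBound

theorem result (n : ℕ) : ∃ Z : ℕ → MvPolynomial (Fin n × Fin 2) ℂ, (∀ k, Z k ≠ 0) ∧
    ∀ a : Fin n × Fin 2 → ℂ, (∀ k, eval a (Z k) ≠ 0) →
    ∀ (F : MvPolynomial (Fin 3) ℂ) (d : ℕ) (m : Fin n → ℕ), F.IsHomogeneous d → Irreducible F →
      (∀ i, HasMult F ![a (i, 0), a (i, 1), 1] (m i)) →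
      (d : ℤ) ^ 2 - ∑ i, (m i : ℤ) ^ 2 < 0 → ∀ j, 2 ≤ m j →
      (1 : ℚ) + (((d : ℚ) ^ 2 - ∑ i, (m i : ℚ) ^ 2) + (-3 * (d : ℚ) + ∑ i, (m i : ℚ))) / 2 ≤
        (m j : ℚ) * (m j - 1) * (2 * m j - 1) / 2 +
          2 * (m j - 1) * ((d : ℚ) ^ 2 - ∑ i, (m i : ℚ) ^ 2) := by
  obtain ⟨Z, hZ, hind⟩ := exists_hypersurfaces (Fin n × Fin 2)
  refine ⟨Z, hZ, fun a ha F d m hF hirr hm hn j hj => ?_⟩
  have hp := gen_of_algInd a (hind a ha)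
  have hC : Cv (fun i : Fin n => ![a (i, 0), a (i, 1), 1]) F d m :=
    ⟨hF, UniqueFactorizationMonoid.irreducible_iff_prime.mp hirr, hm⟩
  have h := genus_bound hp hC hn j hj
  unfold g2 Pool.Agent.P.MP_3c83d0_ag.sq kc at h
  have h2 := (Int.cast_le (R := ℚ)).mpr h
  push_cast at h2
  linarith

end Pool.Agent.Results.MP_3c83d0_ag.GenusBound
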