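import Pool.Agent.K.MP_3c83d0_ag.C1

open MvPolynomial Pool.Agent.P.MP_3c83d0_ag

namespace Pool.Agent.Results.MP_3c83d0_ag.TriplePoint

theorem result (n : ℕ) : ∃ Z : ℕ → MvPolynomial (Fin n × Fin 2) ℂ, (∀ k, Z k ≠ 0) ∧
    ∀ a : Fin n × Fin 2 → ℂ, (∀ k, eval a (Z k) ≠ 0) →
    ∀ (F : MvPolynomial (Fin 3) ℂ) (d : ℕ) (m : Fin n → ℕ), F.IsHomogeneous d → Irreducible F →
      (∀ i, HasMult F ![a (i, 0), a (i, 1), 1] (m i)) → (∃ i, m i = 3) →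
      -1 ≤ (d : ℤ) ^ 2 - ∑ i, (m i : ℤ) ^ 2 ∧
      ((d : ℤ) ^ 2 - ∑ i, (m i : ℤ) ^ 2 = -1 →
        (1 : ℚ) + (((d : ℚ) ^ 2 - ∑ i, (m i : ℚ) ^ 2) + (-3 * (d : ℚ) + ∑ i, (m i : ℚ))) / 2
          = 0) := by
  obtain ⟨Z, hZ, hind⟩ := exists_hypersurfaces (Fin n × Fin 2)
  refine ⟨Z, hZ, fun a ha F d m hF hirr hm ⟨i, hi⟩ => ?_⟩
  have hp := gen_of_algInd a (hind a ha)
  have hC : Cv (fun i : Fin n => ![a (i, 0), a (i, 1), 1]) F d m :=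
    ⟨hF, UniqueFactorizationMonoid.irreducible_iff_prime.mp hirr, hm⟩
  by_cases hn : sq d m < 0
  · obtain ⟨h1, h2⟩ := three hp hC hn i hi
    refine ⟨by unfold Pool.Agent.P.MP_3c83d0_ag.sq at h1; omega, fun _ => ?_⟩
    unfold g2 Pool.Agent.P.MP_3c83d0_ag.sq kc at h2
    have h3 : (((d : ℤ) ^ 2 - ∑ i, (m i : ℤ) ^ 2 + (∑ i, (m i : ℤ) - 3 * (d : ℤ)) : ℤ) : ℚ) = -2 := by
      rw [h2]; norm_num
    push_cast at h3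
    linarith
  · unfold Pool.Agent.P.MP_3c83d0_ag.sq at hn
    exact ⟨by omega, fun h => by omega⟩

end Pool.Agent.Results.MP_3c83d0_ag.TriplePoint
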